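import Pool.Agent.H2.T4.Kform
import Pool.Agent.H86.T4G.Gk

/-!
The `ℓ`-primary part of the Tate-Shafarevich group in cyclotomic `p`-towers over totally real fields
for every odd prime `ℓ ≠ p`, for elliptic curves with a suitable rational subgroup of order `ℓ`.
-/

set_option autoImplicit false
open scoped Classical

namespace H2T4Park2

open NumberField IsDedekindDomain WeierstrassCurve Pool.Agent.H10 Pool.Agent.H11

/-- `k` is contained in a Galois extension `F` of the rationals whose degree over an abelian field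
`F₀` is a power of `ℓ`. -/
def EllType (ℓ : ℕ) (k : Type) [Field k] [NumberField k] : Prop :=
  ∃ (F : Type) (_ : Field F) (_ : NumberField F) (F₀ : IntermediateField ℚ F),
    IsGalois ℚ F ∧ (∃ m : ℕ, m ≠ 0 ∧ Nonempty (F₀ →+* CyclotomicField m ℚ)) ∧
    (∃ r : ℕ, Module.finrank F₀ F = ℓ ^ r) ∧ Nonempty (k →+* F)

/-- `k` is unramified above `ℓ`. -/
def UnramifiedAt (ℓ : ℕ) (k : Type) [Field k] [NumberField k] : Prop :=
  ∀ v : HeightOneSpectrum (𝓞 k), (ℓ : 𝓞 k) ∈ v.asIdeal → (ℓ : 𝓞 k) ∉ v.asIdeal ^ 2

/-- `L` is a totally real field between `k` and `k(ζ_{p^n})` for some `n`. -/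
def Layer (p : ℕ) (k L : Type) [Field k] [NumberField k] [Field L] [NumberField L]
    [Algebra k L] : Prop :=
  IsTotallyReal L ∧ ∃ n : ℕ, Nonempty (L →ₐ[k] CyclotomicField (p ^ (n + 1)) k)

/-- The equation is integral at `v` with unit discriminant. -/
def Good {k : Type} [Field k] [NumberField k] (v : HeightOneSpectrum (𝓞 k))
    (E : WeierstrassCurve k) : Prop :=
  v.valuation k E.a₁ ≤ 1 ∧ v.valuation k E.a₂ ≤ 1 ∧ v.valuation k E.a₃ ≤ 1 ∧
    v.valuation k E.a₄ ≤ 1 ∧ v.valuation k E.a₆ ≤ 1 ∧ v.valuation k E.Δ = 1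

/-- The point reduces to the origin at `w`. -/
def InKernel {N : Type} [Field N] [NumberField N] (w : HeightOneSpectrum (𝓞 N))
    (W : WeierstrassCurve N) (T : W.toAffine.Point) : Prop :=
  ∀ x y h, T = Affine.Point.some x y h → 1 < w.valuation N x

/-- Restriction is a bijection from the `ℓ`-primary part of the Tate-Shafarevich group of `E` over
`K` to the one over `L`, and the group of the points over `K` has an exponent prime to `ℓ` in the
group of the points over `L`. -/
def Stable (ℓ : ℕ) (K L : Type) [Field K] [NumberField K] [Field L] [NumberField L] [Algebra K L]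
    (E : WeierstrassCurve K) : Prop :=
  H78D.ShaPBijective ℓ K E L ∧
    ∃ m : ℕ, ¬ ℓ ∣ m ∧ ∀ P : (E.baseChange L).toAffine.Point,
      ∃ Q : (E.baseChange K).toAffine.Point,
        m • P = WeierstrassCurve.Affine.Point.map (Algebra.ofId K L) Q

/-- `E` is stable in the `p`-tower over `k` from some level on. -/
def StableTower (ℓ p : ℕ) (k : Type) [Field k] [NumberField k] (E : WeierstrassCurve k) : Prop :=
  ∃ n : ℕ, ∀ (K L : Type) [Field K] [NumberField K] [Field L] [NumberField L]
    [Algebra k K] [Algebra k L] [Algebra K L] [IsScalarTower k K L], Layer p k L →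
    (∃ j : ℕ, Module.finrank K L = p ^ j) → p ^ n ∣ Module.finrank ℚ K →
      Stable ℓ K L (E.baseChange K)

/-- `P` is a set of points which represents all classes modulo `ℓ E(L)`. -/
def RepresentsPoints (ℓ : ℕ) (L : Type) [Field L] (W : WeierstrassCurve L)
    (P : Finset W.toAffine.Point) : Prop :=
  ∀ X : W.toAffine.Point, ∃ p ∈ P, ∃ S : W.toAffine.Point, X = p + ℓ • S

/-- `T` is a set of cochains which represents all classes of the Tate-Shafarevich group which are
killed by `ℓ`. -/
def RepresentsSha (ℓ : ℕ) (L : Type) [Field L] [NumberField L] (W : WeierstrassCurve L)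
    (T : Finset ((AlgebraicClosure L ≃ₐ[L] AlgebraicClosure L) →
      (W.baseChange (AlgebraicClosure L)).toAffine.Point)) : Prop :=
  ∀ f, IsCocycle L W f → IsLocTriv L W f → IsCobound L W (fun σ => ℓ • f σ) →
    ∃ t ∈ T, IsCobound L W (fun σ => f σ - t σ)

/-- In the tower over `k` the product of the numbers of the classes of the points modulo `ℓ` and of
the elements of order dividing `ℓ` in the Tate-Shafarevich group is at least a constant times
`q^[L : k]`. -/
def Grows (ℓ p : ℕ) (k : Type) [Field k] [NumberField k] (E : WeierstrassCurve k) (q : ℕ) : Prop :=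
  ∃ C : ℕ, ∀ (L : Type) [Field L] [NumberField L] [Algebra k L], Layer p k L →
    ∀ P T, RepresentsPoints ℓ L (E.baseChange L) P → RepresentsSha ℓ L (E.baseChange L) T →
      q ^ Module.finrank k L ≤ C * (P.card * T.card)

/-- The Galois conjugate of a point. -/
noncomputable abbrev conj {k N : Type} [Field k] [NumberField k] [Field N] [NumberField N]
    [Algebra k N] (E : WeierstrassCurve k) (g : N ≃ₐ[k] N) :
    (E.baseChange N).toAffine.Point →+ (E.baseChange N).toAffine.Point :=
  WeierstrassCurve.Affine.Point.map (g : N →ₐ[k] N)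

/-- Over every number field which contains `N` the points killed by `ℓ` which reduce to the origin
at a prime above `ℓ` are multiples of `T`. -/
def GeneratesKernel (ℓ : ℕ) {k N : Type} [Field k] [NumberField k] [Field N] [NumberField N]
    [Algebra k N] (E : WeierstrassCurve k) (T : (E.baseChange N).toAffine.Point) : Prop :=
  ∀ (M : Type) [Field M] [NumberField M] [Algebra k M] [Algebra N M] [IsScalarTower k N M]
    (q : HeightOneSpectrum (𝓞 M)), (ℓ : 𝓞 M) ∈ q.asIdeal →
    ∀ X : (E.baseChange M).toAffine.Point, ℓ • X = 0 → InKernel q (E.baseChange M) X →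
      ∃ j : ℕ, X = j • WeierstrassCurve.Affine.Point.map (IsScalarTower.toAlgHom k N M) T

theorem result (ℓ p f : ℕ) [Fact ℓ.Prime] [Fact p.Prime] (hℓ : ℓ ≠ 2) (hp : p ≠ 2) (hne : p ≠ ℓ)
    (hf : f ≠ 0) (k : Type) [Field k] [NumberField k] (hk : IsTotallyReal k)
    (E : WeierstrassCurve k) (hΔ : E.Δ ≠ 0)
    (hg : ∀ v : HeightOneSpectrum (𝓞 k), (ℓ : 𝓞 k) ∈ v.asIdeal → Good v E)
    (N : Type) [Field N] [NumberField N] [Algebra k N] [IsCyclotomicExtension {f} k N]
    (J : N ≃ₐ[k] N) (hJ : ∀ z : N, z ^ f = 1 → J z = z⁻¹)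
    (T : (E.baseChange N).toAffine.Point) (hT0 : T ≠ 0) (hT : ℓ • T = 0)
    (hst : ∀ g : N ≃ₐ[k] N, ∃ c : ℕ, conj E g T = c • T) :
    (EllType ℓ k →
      (conj E J T = -T ∧ ∀ w : HeightOneSpectrum (𝓞 N), (ℓ : 𝓞 N) ∈ w.asIdeal →
        ¬ InKernel w (E.baseChange N) T) ∨
      (conj E J T = T ∧ GeneratesKernel ℓ E T) →
      StableTower ℓ p k E) ∧
    (UnramifiedAt ℓ k → conj E J T = -T →
      ∀ S : Finset (HeightOneSpectrum (𝓞 k)), (∀ v ∈ S, (ℓ : 𝓞 k) ∈ v.asIdeal ∧
        ∀ w : HeightOneSpectrum (𝓞 N), (∀ x : 𝓞 k, algebraMap (𝓞 k) (𝓞 N) x ∈ w.asIdeal ↔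
          x ∈ v.asIdeal) → InKernel w (E.baseChange N) T) →
      Grows ℓ p k E (∏ v ∈ S, Ideal.absNorm v.asIdeal)) := by
  have hCC := H2T4.isCC_of_inv hk hf J hJ
  have hJN : IsCyclotomicExtension {f} k N := inferInstance
  have hgal : IsGalois k N := IsCyclotomicExtension.isGalois {f} k N
  have hpm : ∀ (g : N ≃ₐ[k] N) (h : (E.map (algebraMap k N)).map (g : N →+* N) =
      E.map (algebraMap k N)) (X : (E.baseChange N).toAffine.Point), pm (g : N →+* N) h X =
        conj E g X := by
    intro g h X
    rcases X with _ | ⟨x, y, hxy⟩ <;> rfl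
  have hhg : ∀ g : N ≃ₐ[k] N, (E.map (algebraMap k N)).map (g : N →+* N) =
      E.map (algebraMap k N) := H86G.map_gal rfl
  refine ⟨?_, ?_⟩
  · intro hE hc
    have hLT : H68TM.LType ℓ k := ⟨hk, hE⟩
    have hlp : ℓ ≠ p := fun h => hne h.symm
    have hup : ∀ (w : HeightOneSpectrum (𝓞 N)), (ℓ : 𝓞 N) ∈ w.asIdeal →
        H86G.GI (w.valuation N) (E.map (algebraMap k N)) := by
      intro w hw
      refine H86G.gi_up (hg (H73IS.below k w) ?_)
      rw [H73IS.mem_below, map_natCast]
      exact hw
    have hO : H68TM.OddOrEven ℓ f E := by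
      refine ⟨N, inferInstance, inferInstance, inferInstance, hJN, J, T, hhg J, hCC, hT0, hT, ?_⟩
      rcases hc with ⟨h1, h2⟩ | ⟨h1, h2⟩
      · left
        refine ⟨(hpm J _ T).trans h1, ?_⟩
        rcases T with _ | ⟨x, y, h⟩
        · exact absurd rfl hT0
        · refine ⟨x, y, h, rfl, fun w hw => ⟨hup w hw, ?_⟩⟩
          by_contra hx
          refine h2 w hw ?_
          intro x' y' h' e
          rw [Affine.Point.some.injEq] at e
          rw [← e.1]
          exact not_le.1 hx
      · right
        refine ⟨(hpm J _ T).trans h1, hup, ?_⟩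
        intro M _ _ _ q hq x y h hxy hx
        let _ : Algebra k M := ((algebraMap N M).comp (algebraMap k N)).toAlgebra
        have : IsScalarTower k N M := IsScalarTower.of_algebraMap_eq fun _ => rfl
        have e0 : (E.map (algebraMap k N)).map (algebraMap N M) = E.baseChange M := by
          rw [WeierstrassCurve.map_map]
          rfl
        have e1 : ((E.map (algebraMap k N)).map (algebraMap N M)).map (RingHom.id M) =
            E.baseChange M := by rw [e0]; rfl
        obtain ⟨j, hj⟩ := h2 M q hq (pm (RingHom.id M) e1 (Affine.Point.some x y h))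
          (by rw [← map_nsmul, hxy, map_zero]) (by
          intro x' y' h' e
          rw [pm_some, Affine.Point.some.injEq] at e
          rw [← e.1]
          exact hx)
        refine ⟨j, pm_injective (RingHom.id M) e1 (hj.trans ?_)⟩
        rw [map_nsmul]
        congr 1
        rcases T with _ | ⟨x, y, h⟩ <;> rfl
    obtain ⟨n, hn⟩ := H68TM.stable_tower_both hℓ hp hlp hf hLT hΔ hO
    exact ⟨n, fun K L _ _ _ _ _ _ _ _ hL hj hK => hn K L (H55T3.lay_gen hL) hj hK⟩
  · intro hU hodd S hS
    obtain ⟨C, hC⟩ := H86G.growth_genG ℓ p hℓ hp hne hU (N := N) hΔ hT0 hT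
      (fun g => by
        obtain ⟨c, hc⟩ := hst g
        exact ⟨c, (hpm g _ T).trans hc⟩)
      (fun φ g hg => by
        have : g = J := by
          ext x
          apply φ.injective
          rw [hg x]
          exact (hCC φ x).symm
        rw [this]
        exact (hpm J _ T).trans hodd)
      hg S (fun v hv => (hS v hv).1)
      (fun w hw => by
        have h1 := (hS _ hw).2 w (fun x => (H73IS.mem_below w x).symm)
        rcases T with _ | ⟨x, y, h⟩
        · exact absurd rfl hT0
        · exact ⟨x, y, h, rfl, h1 x y h rfl⟩)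
    have hr2 : InfinitePlace.nrComplexPlaces k = 0 := by
      exact IsTotallyReal.nrComplexPlaces_eq_zero k
    refine ⟨C, fun L _ _ _ hL P T hP hT => ?_⟩
    obtain ⟨L', _, _, h, hR, hgen⟩ := H55T3.lay_gen hL
    have := hC L' L h hR hgen P T hP hT
    rw [hr2, pow_zero, one_pow, one_mul] at this
    exact this

end H2T4Park2
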