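import Pool.Agent.H2.T4.Fin

/-!
The `ℓ`-primary part of the Tate-Shafarevich group in cyclotomic `p`-towers, for every odd prime
`ℓ ≠ p`, for elliptic curves over the rationals with a suitable rational subgroup of order `ℓ`.
-/

set_option autoImplicit false
open scoped Classical

namespace H2T4Park

open NumberField WeierstrassCurve Pool.Agent.H10 Pool.Agent.H11 H2T4

/-- `L` is a totally real subfield of `ℚ(ζ_{p^n})` for some `n`. -/
def Layer (p : ℕ) (L : Type) [Field L] [NumberField L] : Prop :=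
  IsTotallyReal L ∧ ∃ n : ℕ, Nonempty (L →+* CyclotomicField (p ^ (n + 1)) ℚ)

theorem result (ℓ p f : ℕ) [Fact ℓ.Prime] [Fact p.Prime] [NeZero f] (hℓ : ℓ ≠ 2) (hp : p ≠ 2)
    (hne : p ≠ ℓ) (hℓf : ¬ ℓ ∣ f) (hpf : ¬ p ∣ f) (W : WeierstrassCurve ℤ)
    (hΔ : ¬ (ℓ : ℤ) ∣ W.Δ) (T : (W.baseChange (CyclotomicField f ℚ)).toAffine.Point)
    (hT0 : T ≠ 0) (hT : ℓ • T = 0)
    (hJ : ∀ J : CyclotomicField f ℚ ≃ₐ[ℚ] CyclotomicField f ℚ, (∀ ζ, ζ ^ f = 1 → J ζ = ζ⁻¹) →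
      WeierstrassCurve.Affine.Point.map (J : CyclotomicField f ℚ →ₐ[ℚ] CyclotomicField f ℚ) T = -T) :
    ∃ N : ℕ, ∀ (K L : Type) [Field K] [NumberField K] [Field L] [NumberField L] [Algebra K L],
      Layer p L → (∃ i : ℕ, Module.finrank K L = p ^ i) → p ^ N ∣ Module.finrank ℚ K →
      ShaPrimBijective ℓ K (W.baseChange K) L ∧
      ∃ m : ℕ, ¬ ℓ ∣ m ∧ ∀ P : ((W.baseChange K).baseChange L).toAffine.Point,
        ∃ Q : ((W.baseChange K).baseChange K).toAffine.Point,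
          m • P = WeierstrassCurve.Affine.Point.map (Algebra.ofId K L) Q := by
  have : IsCyclotomicExtension {f} ℚ (CyclotomicField f ℚ) := H5SW.Ex3_inst f
  refine H2T4.main ℓ p f hℓ hp hne hℓf hpf W hΔ T hT0 hT ?_
  intro g hg
  refine Eq.trans ?_ (hJ g (fun ζ hζ => conj_root g hg ζ hζ))
  clear hJ hT hT0
  rcases T with _ | ⟨x, y, h⟩ <;> rfl

end H2T4Park
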