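import Pool.Agent.H2.ZS.Tn
import Pool.Agent.H86.ZG.Gy

/-!
The `ℓ`-primary part of the Tate-Shafarevich group in the towers of all cyclotomic fields with
conductor supported in a finite set of primes, over totally real fields, for every odd prime `ℓ` and
all elliptic curves with a suitable rational subgroup of order `ℓ`.
-/

set_option autoImplicit false
open scoped Classical

namespace H2T4Park3

open NumberField IsDedekindDomain WeierstrassCurve Pool.Agent.H10 Pool.Agent.H11

/-- `N` is contained in a Galois extension `F` of the rationals whose degree over an abelian field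
`F₀` is a power of `ℓ`. -/
def EllType (ℓ : ℕ) (N : Type) [Field N] [NumberField N] : Prop :=
  ∃ (F : Type) (_ : Field F) (_ : NumberField F) (F₀ : IntermediateField ℚ F),
    IsGalois ℚ F ∧ (∃ m : ℕ, m ≠ 0 ∧ Nonempty (F₀ →+* CyclotomicField m ℚ)) ∧
    (∃ r : ℕ, Module.finrank F₀ F = ℓ ^ r) ∧ Nonempty (N →+* F)

/-- `k` is unramified above `ℓ`. -/
def UnramifiedAt (ℓ : ℕ) (k : Type) [Field k] [NumberField k] : Prop :=
  ∀ v : HeightOneSpectrum (𝓞 k), (ℓ : 𝓞 k) ∈ v.asIdeal → (ℓ : 𝓞 k) ∉ v.asIdeal ^ 2

/-- `L` is a totally real field between `k` and `k(ζ_n)` for some `n` whose prime factors are all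
in `S`. -/
def Layer (S : Finset ℕ) (k L : Type) [Field k] [NumberField k] [Field L] [NumberField L]
    [Algebra k L] : Prop :=
  IsTotallyReal L ∧ ∃ n : ℕ, (n ≠ 0 ∧ ∀ q : ℕ, q.Prime → q ∣ n → q ∈ S) ∧
    Nonempty (L →ₐ[k] CyclotomicField n k)

/-- `K` contains all elements of `L` whose conjugates lie in the field of the `m`-th roots of
unity. -/
def Deep (m : ℕ) (K L : Type) [Field K] [Field L] [NumberField L] [Algebra K L] : Prop :=
  ∀ x : L, (∃ y : CyclotomicField m ℚ, minpoly ℚ y = minpoly ℚ x) → ∃ z : K, algebraMap K L z = x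

/-- `J` is the complex conjugation of `N` for all embeddings. -/
def IsConjugation {k N : Type} [Field k] [NumberField k] [Field N] [NumberField N] [Algebra k N]
    (J : N ≃ₐ[k] N) : Prop :=
  ∀ (φ : N →+* ℂ) (x : N), φ (J x) = starRingEnd ℂ (φ x)

/-- The Galois conjugate of a point. -/
noncomputable abbrev conj {k N : Type} [Field k] [NumberField k] [Field N] [NumberField N]
    [Algebra k N] (E : WeierstrassCurve k) (g : N ≃ₐ[k] N) :
    (E.baseChange N).toAffine.Point →+ (E.baseChange N).toAffine.Point :=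
  WeierstrassCurve.Affine.Point.map (g : N →ₐ[k] N)

/-- The equation has integral coefficients at `w` and its discriminant is a unit. -/
def GoodEq {N : Type} [Field N] [NumberField N] (w : HeightOneSpectrum (𝓞 N))
    (W : WeierstrassCurve N) : Prop :=
  w.valuation N W.a₁ ≤ 1 ∧ w.valuation N W.a₂ ≤ 1 ∧ w.valuation N W.a₃ ≤ 1 ∧
    w.valuation N W.a₄ ≤ 1 ∧ w.valuation N W.a₆ ≤ 1 ∧ w.valuation N W.Δ = 1

/-- The equation is `y² = x³ + a x² + b x + c` with `a` a unit at `w` and `b`, `c` in `w`; the
reduction is multiplicative with the node `(0, 0)`. -/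
def NodeEq {N : Type} [Field N] [NumberField N] (w : HeightOneSpectrum (𝓞 N))
    (W : WeierstrassCurve N) : Prop :=
  W.a₁ = 0 ∧ W.a₃ = 0 ∧ w.valuation N W.a₂ = 1 ∧ w.valuation N W.a₄ < 1 ∧ w.valuation N W.a₆ < 1

/-- The `x`-coordinate after the change of variables `C`. -/
def newX {N : Type} [Field N] (C : VariableChange N) (x : N) : N := (C.u⁻¹ : Nˣ) ^ 2 * (x - C.r)

/-- Above `ℓ` the curve is semistable over `N`, and `T` does not reduce to the origin (good
reduction), respectively reduces to the node (multiplicative reduction). -/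
def EtaleAbove (ℓ : ℕ) {k N : Type} [Field k] [NumberField k] [Field N] [NumberField N]
    [Algebra k N] (E : WeierstrassCurve k) (T : (E.baseChange N).toAffine.Point) : Prop :=
  ∃ x y h, T = Affine.Point.some x y h ∧ ∀ w : HeightOneSpectrum (𝓞 N), (ℓ : 𝓞 N) ∈ w.asIdeal →
    ∃ C : VariableChange N, (GoodEq w (C • E.baseChange N) ∧ w.valuation N (newX C x) ≤ 1) ∨
      (NodeEq w (C • E.baseChange N) ∧ w.valuation N (newX C x) < 1)

/-- Above `ℓ` the curve is semistable over `N`, and over all number fields containing `N` the points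
killed by `ℓ` which reduce to the origin (good reduction), respectively do not reduce to the node
(multiplicative reduction), are multiples of `T`. -/
def ConnectedAbove (ℓ : ℕ) {k N : Type} [Field k] [NumberField k] [Field N] [NumberField N]
    [Algebra k N] (E : WeierstrassCurve k) (T : (E.baseChange N).toAffine.Point) : Prop :=
  ∀ w : HeightOneSpectrum (𝓞 N), (ℓ : 𝓞 N) ∈ w.asIdeal →
    ∃ C : VariableChange N, (GoodEq w (C • E.baseChange N) ∨ NodeEq w (C • E.baseChange N)) ∧
      ∀ (M : Type) [Field M] [NumberField M] [Algebra k M] [Algebra N M] [IsScalarTower k N M]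
        (q : HeightOneSpectrum (𝓞 M)),
        (∀ x : 𝓞 N, algebraMap (𝓞 N) (𝓞 M) x ∈ q.asIdeal ↔ x ∈ w.asIdeal) →
        ∀ (x y : M) (h : (E.baseChange M).toAffine.Nonsingular x y),
          ℓ • Affine.Point.some x y h = 0 →
          (GoodEq w (C • E.baseChange N) ∧
              1 < q.valuation M (newX (C.map (algebraMap N M)) x) ∨
            NodeEq w (C • E.baseChange N) ∧
              1 ≤ q.valuation M (newX (C.map (algebraMap N M)) x)) →
          ∃ j : ℕ, Affine.Point.some x y h =
            j • WeierstrassCurve.Affine.Point.map (IsScalarTower.toAlgHom k N M) T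

/-- Restriction is a bijection from the `ℓ`-primary part of the Tate-Shafarevich group of `E` over
`K` to the one over `L`, and the group of the points over `K` has an exponent prime to `ℓ` in the
group of the points over `L`. -/
def Stable (ℓ : ℕ) (K L : Type) [Field K] [NumberField K] [Field L] [NumberField L] [Algebra K L]
    (E : WeierstrassCurve K) : Prop :=
  H78D.ShaPBijective ℓ K E L ∧
    ∃ m : ℕ, ¬ ℓ ∣ m ∧ ∀ P : (E.baseChange L).toAffine.Point,
      ∃ Q : (E.baseChange K).toAffine.Point,
        m • P = WeierstrassCurve.Affine.Point.map (Algebra.ofId K L) Q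

/-- `E` is stable in the tower of `S` over `k`: from some depth on nothing changes. -/
def StableTower (ℓ : ℕ) (S : Finset ℕ) (k : Type) [Field k] [NumberField k]
    (E : WeierstrassCurve k) : Prop :=
  ∃ n : ℕ, ∀ (K L : Type) [Field K] [NumberField K] [Field L] [NumberField L]
    [Algebra k K] [Algebra k L] [Algebra K L] [IsScalarTower k K L], Layer S k L →
    Deep ((∏ q ∈ S, q) ^ n) K L → Stable ℓ K L (E.baseChange K)

/-- `P` is a set of points which represents all classes modulo `ℓ E(L)`. -/
def RepresentsPoints (ℓ : ℕ) (L : Type) [Field L] (W : WeierstrassCurve L)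
    (P : Finset W.toAffine.Point) : Prop :=
  ∀ X : W.toAffine.Point, ∃ p ∈ P, ∃ Y : W.toAffine.Point, X = p + ℓ • Y

/-- `R` is a set of cochains which represents all classes of the Tate-Shafarevich group which are
killed by `ℓ`. -/
def RepresentsSha (ℓ : ℕ) (L : Type) [Field L] [NumberField L] (W : WeierstrassCurve L)
    (R : Finset ((AlgebraicClosure L ≃ₐ[L] AlgebraicClosure L) →
      (W.baseChange (AlgebraicClosure L)).toAffine.Point)) : Prop :=
  ∀ f, IsCocycle L W f → IsLocTriv L W f → IsCobound L W (fun σ => ℓ • f σ) →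
    ∃ t ∈ R, IsCobound L W (fun σ => f σ - t σ)

/-- In the tower the product of the numbers of the classes of the points modulo `ℓ` and of the
elements of order dividing `ℓ` in the Tate-Shafarevich group is at least a constant times
`q^[L : k]`. -/
def Grows (ℓ : ℕ) (S : Finset ℕ) (k : Type) [Field k] [NumberField k] (E : WeierstrassCurve k)
    (q : ℕ) : Prop :=
  ∃ C : ℕ, ∀ (L : Type) [Field L] [NumberField L] [Algebra k L], Layer S k L →
    ∀ P R, RepresentsPoints ℓ L (E.baseChange L) P → RepresentsSha ℓ L (E.baseChange L) R →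
      q ^ Module.finrank k L ≤ C * (P.card * R.card)

/-- The equation is integral at `v`, and at all primes of `N` above `v` the point `T` reduces to the
origin. -/
def InKernelAbove {k N : Type} [Field k] [NumberField k] [Field N] [NumberField N] [Algebra k N]
    (v : HeightOneSpectrum (𝓞 k)) (E : WeierstrassCurve k) (T : (E.baseChange N).toAffine.Point) :
    Prop :=
  (v.valuation k E.a₁ ≤ 1 ∧ v.valuation k E.a₂ ≤ 1 ∧ v.valuation k E.a₃ ≤ 1 ∧
    v.valuation k E.a₄ ≤ 1 ∧ v.valuation k E.a₆ ≤ 1) ∧
  ∀ w : HeightOneSpectrum (𝓞 N),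
    (∀ x : 𝓞 k, algebraMap (𝓞 k) (𝓞 N) x ∈ w.asIdeal ↔ x ∈ v.asIdeal) →
    ∀ x y h, T = Affine.Point.some x y h → 1 < w.valuation N x

theorem result (ℓ : ℕ) [Fact ℓ.Prime] (hℓ : ℓ ≠ 2) (S : Finset ℕ)
    (hS : ∀ p ∈ S, p.Prime ∧ p ≠ 2 ∧ p ≠ ℓ) (k N : Type) [Field k] [NumberField k] [Field N]
    [NumberField N] [Algebra k N] [IsGalois k N] (J : N ≃ₐ[k] N) (hJ : IsConjugation J)
    (E : WeierstrassCurve k) (hΔ : E.Δ ≠ 0) (T : (E.baseChange N).toAffine.Point) (hT0 : T ≠ 0)
    (hT : ℓ • T = 0) (hst : ∀ g : N ≃ₐ[k] N, ∃ c : ℕ, conj E g T = c • T) :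
    (EllType ℓ N →
      (conj E J T = -T ∧ EtaleAbove ℓ E T) ∨ (conj E J T = T ∧ ConnectedAbove ℓ E T) →
      StableTower ℓ S k E) ∧
    (UnramifiedAt ℓ k → conj E J T = -T →
      ∀ V : Finset (HeightOneSpectrum (𝓞 k)),
        (∀ v ∈ V, (ℓ : 𝓞 k) ∈ v.asIdeal ∧ InKernelAbove v E T) →
        Grows ℓ S k E (∏ v ∈ V, Ideal.absNorm v.asIdeal)) := by
  have hl : ℓ.Prime := Fact.out
  have hOP : H78Z.OP S := fun p hp => ⟨(hS p hp).1, (hS p hp).2.1⟩
  have hlS : ℓ ∉ S := fun h => (hS ℓ h).2.2 rfl
  have hpm : ∀ (g : N ≃ₐ[k] N) (h : (E.map (algebraMap k N)).map (g : N →+* N) =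
      E.map (algebraMap k N)) (X : (E.baseChange N).toAffine.Point), pm (g : N →+* N) h X =
        conj E g X := by
    intro g h X
    rcases X with _ | ⟨x, y, hxy⟩ <;> rfl
  have hhg : ∀ g : N ≃ₐ[k] N, (E.map (algebraMap k N)).map (g : N →+* N) =
      E.map (algebraMap k N) := H86G.map_gal rfl
  have hk : IsTotallyReal k := H2ZS.real_of_cc (J := J) hJ
  refine ⟨?_, ?_⟩
  · intro hE hc
    obtain ⟨n, hn⟩ := H2ZS.stable_tower_SN hOP hℓ hlS hE (J1 := J) hJ hΔ (T1 := T) hT0 hT (hhg J)
      (by
        rcases hc with ⟨h1, h2⟩ | ⟨h1, h2⟩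
        · left
          exact ⟨(hpm J _ T).trans h1, h2⟩
        · right
          refine ⟨(hpm J _ T).trans h1, ?_⟩
          intro w hw
          obtain ⟨C, hC, h3⟩ := h2 w hw
          refine ⟨C, hC, ?_⟩
          intro M _ _ _ q hq x y h hxy hx
          let _ : Algebra k M := ((algebraMap N M).comp (algebraMap k N)).toAlgebra
          have : IsScalarTower k N M := IsScalarTower.of_algebraMap_eq fun _ => rfl
          have e0 : (E.map (algebraMap k N)).map (algebraMap N M) = E.baseChange M := by
            rw [WeierstrassCurve.map_map]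
            rfl
          have e1 : ((E.map (algebraMap k N)).map (algebraMap N M)).map (RingHom.id M) =
              E.baseChange M := by rw [e0]; rfl
          have h' : (E.baseChange M).toAffine.Nonsingular x y := by
            rw [← e0]
            exact h
          have e2 : pm (RingHom.id M) e1 (Affine.Point.some x y h) = Affine.Point.some x y h' := rfl
          obtain ⟨j, hj⟩ := h3 M q hq x y h' (by
            rw [← e2, ← map_nsmul, hxy, map_zero]) hx
          refine ⟨j, pm_injective (RingHom.id M) e1 (e2.trans (hj.trans ?_))⟩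
          rw [map_nsmul]
          congr 1
          rcases T with _ | ⟨x, y, h⟩ <;> rfl)
    exact ⟨n, fun K L _ _ _ _ _ _ _ _ hL hD => hn K L hL.1 hL.2 hD⟩
  · intro hU hodd V hV
    obtain ⟨C, hC⟩ := H86Z.growth_ZS3 hl hℓ hOP hlS hU (N := N) hΔ hT0 hT
      (fun g => by
        obtain ⟨c, hc⟩ := hst g
        exact ⟨c, (hpm g _ T).trans hc⟩)
      (fun φ g hg => by
        have : g = J := by
          ext x
          apply φ.injective
          rw [hg x]
          exact (hJ φ x).symm
        rw [this]
        exact (hpm J _ T).trans hodd)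
      V (fun v hv => (hV v hv).1) (fun v hv => (hV v hv).2.1)
      (fun w hw => by
        have h1 := (hV _ hw).2.2 w (fun x => (H73IS.mem_below w x).symm)
        rcases T with _ | ⟨x, y, h⟩
        · exact absurd rfl hT0
        · exact ⟨x, y, h, rfl, h1 x y h rfl⟩)
    have hr2 : InfinitePlace.nrComplexPlaces k = 0 := by
      exact IsTotallyReal.nrComplexPlaces_eq_zero k
    refine ⟨C, fun L _ _ _ hL P R hP hR => ?_⟩
    obtain ⟨hreal, n, hn, hφ⟩ := hL
    have := hC n hn.1 hn.2 L hφ (fun ψ _ => InfinitePlace.isReal_mk_iff.1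
      (hreal.isReal (InfinitePlace.mk ψ))) P R hP hR
    rw [hr2, pow_zero, one_pow, one_mul] at this
    exact this

end H2T4Park3
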